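import Mathlib
import Pool.Agent.H10.Skeleton

namespace Pool.Agent.Results.MP_fc7dfc_gt.Skel

open Finset Real
open scoped InnerProductSpace

abbrev V (d : ℕ) := ℝ × EuclideanSpace ℝ (Fin d)

variable {d : ℕ}

/-- the Euclidean form (`b = true`) or the Lorentz form (`b = false`) on `ℝ × ℝ^d` -/
noncomputable def B (b : Bool) (p q : V d) : ℝ := p.1 * q.1 + (if b then 1 else -1) * ⟪p.2, q.2⟫_ℝ

/-- the unit sphere (`b = true`) or the upper sheet of the hyperboloid (`b = false`) -/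
def X (b : Bool) (d : ℕ) : Set (V d) := {p | B b p p = 1 ∧ (b = false → 0 < p.1)}

/-- geodesic distance -/
noncomputable def ds (b : Bool) (p q : V d) : ℝ := if b then arccos (B b p q) else arcosh (B b p q)

/-- geodesic convex hull of the vertices `p i`, `i ∈ S` -/
def hull (b : Bool) (p : Fin (d + 1) → V d) (S : Finset (Fin (d + 1))) : Set (V d) :=
  {z ∈ X b d | ∃ a : Fin (d + 1) → ℝ, (∀ i, 0 ≤ a i) ∧ z = ∑ i ∈ S, a i • p i}

open Pool.Agent.H10.Skeleton in
lemma core {ι E : Type} [Fintype ι] [DecidableEq ι] [NormedAddCommGroup E] [InnerProductSpace ℝ E]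
    (u : ι → E) (s μ t : ι → ℝ) (hμ : ∀ i, 0 ≤ μ i) (ht : ∀ i, 0 < t i) (h0 : ∑ i, μ i • u i = 0)
    (h1 : ∑ i, μ i * s i = 1) (T : ℝ) (m : ℕ) (hm : 1 ≤ m) (hm' : m ≤ Fintype.card ι)
    (hc : 0 < c (Fintype.card ι) m) (hT : 0 < T)
    (h : (∑ i, μ i / t i) * ∑ i, μ i * t i * ‖u i‖ ^ 2 ≤ T) :
    ∃ S : Finset ι, S.card = m ∧ ∃ a : ι → ℝ, (∀ i, 0 ≤ a i) ∧ 0 < ∑ i ∈ S, a i * s i ∧
      ‖∑ i ∈ S, a i • u i‖ ^ 2 ≤ c (Fintype.card ι) m * T * (∑ i ∈ S, a i * s i) ^ 2 := by
  set N := ∑ i, μ i / t i with hN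
  set k := c (Fintype.card ι) m
  have N0 : 0 < N := by
    refine (sum_nonneg fun i _ => div_nonneg (hμ i) (ht i).le).lt_of_ne fun e => ?_
    have := (sum_eq_zero_iff_of_nonneg fun i _ => div_nonneg (hμ i) (ht i).le).1 e.symm
    rw [sum_eq_zero fun i hi => by
      rw [(div_eq_zero_iff.1 (this i hi)).resolve_right (ht i).ne', zero_mul]] at h1
    exact zero_ne_one h1
  have e : ∀ i, μ i / t i / N * t i = μ i / N := fun i => by have := ht i; field_simp
  obtain ⟨S, hS, a, ha, h2⟩ := iter (fun i => t i • u i) m hm _ hm' univ card_univ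
    (fun i => -2 * k * T / N * (t i * s i)) (fun i => μ i / t i / N)
    ⟨fun i => div_nonneg (div_nonneg (hμ i) (ht i).le) N0.le, by simp, by
      rw [← sum_div, div_self N0.ne']⟩
  have y0 : y (fun i => t i • u i) (fun i => μ i / t i / N) = 0 := by
    simp only [y, smul_smul, e]
    simp only [div_eq_inv_mul _ N, mul_smul, ← smul_sum, h0, smul_zero]
  have y1 : y (fun i => t i • u i) a = ∑ i ∈ S, (a i * t i) • u i := by
    simp only [y, smul_smul]
    exact (sum_subset (subset_univ S) fun i _ hi => by rw [ha.2.1 i hi, zero_mul, zero_smul]).symm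
  have y2 : ∑ i, -2 * k * T / N * (t i * s i) * a i = -2 * k * T / N * ∑ i ∈ S, a i * t i * s i := by
    rw [mul_sum, ← sum_subset (subset_univ S) fun i _ hi => by rw [ha.2.1 i hi, mul_zero]]
    exact sum_congr rfl fun i _ => by ring
  have y3 : ∑ i, -2 * k * T / N * (t i * s i) * (μ i / t i / N) = -2 * k * T / N / N := by
    rw [← mul_one (_ / N / N), ← h1, mul_sum]
    exact sum_congr rfl fun i _ => by have := ht i; field_simp
  have y4 : ∑ i, μ i / t i / N * ‖t i • u i‖ ^ 2 = (∑ i, μ i * t i * ‖u i‖ ^ 2) / N := by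
    rw [sum_div]
    exact sum_congr rfl fun i _ => by
      have := ht i
      rw [norm_smul, mul_pow, Real.norm_eq_abs, sq_abs]
      field_simp
  simp only [F, Q, y0, y1, y2, y3, y4, norm_zero] at h2
  set s0 := ∑ i ∈ S, a i * t i * s i
  set Y := ‖∑ i ∈ S, (a i * t i) • u i‖ ^ 2
  have h3 : (∑ i, μ i * t i * ‖u i‖ ^ 2) / N ≤ T / N / N := by
    gcongr
    rw [le_div_iff₀' N0]
    exact h
  have h4 : Y ≤ k * T * (2 * s0 * N⁻¹ - N⁻¹ ^ 2) := by
    have := mul_le_mul_of_nonneg_left h3 hc.le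
    simp only [div_eq_mul_inv] at this h2
    nlinarith
  have Y0 : 0 ≤ Y := sq_nonneg _
  have kT := mul_pos hc hT
  have i0 := inv_pos.2 N0
  refine ⟨S, hS, fun i => a i * t i, fun i => mul_nonneg (ha.1 i) (ht i).le, ?_,
    h4.trans (mul_le_mul_of_nonneg_left (by nlinarith [sq_nonneg (s0 - N⁻¹)]) kT.le)⟩
  have := (mul_nonneg_iff_of_pos_left kT).1 (Y0.trans h4)
  by_contra k0
  nlinarith

lemma B_comm (b : Bool) (p q : V d) : B b p q = B b q p := by
  simp [B, mul_comm, real_inner_comm]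

lemma B_sum (b : Bool) (S : Finset (Fin (d + 1))) (a : Fin (d + 1) → ℝ) (p : Fin (d + 1) → V d)
    (q : V d) : B b (∑ i ∈ S, a i • p i) q = ∑ i ∈ S, a i * B b (p i) q := by
  simp [B, Prod.fst_sum, Prod.snd_sum, sum_inner, real_inner_smul_left, sum_mul, mul_sum,
    mul_add, sum_add_distrib, mul_assoc, mul_left_comm]

lemma ex_w (b : Bool) {x : V d} (hx : x ∈ X b d) : ∃ w : V d →ₗ[ℝ] EuclideanSpace ℝ (Fin d),
    ∀ p q, ⟪w p, w q⟫_ℝ = (if b then 1 else -1) * (B b p q - B b p x * B b q x) := by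
  set e : ℝ := if b then 1 else -1 with he
  have e2 : e * e = 1 := by cases b <;> simp [e]
  have h := hx.1
  rw [B, ← he] at h
  by_cases h1 : 1 + x.1 = 0
  · have h2 : x.1 = -1 := by linarith
    have h3 : x.2 = 0 := inner_self_eq_zero (𝕜 := ℝ).1 (by
      rw [h2] at h
      linear_combination e * h - ⟪x.2, x.2⟫_ℝ * e2)
    refine ⟨LinearMap.snd _ _ _, fun p q => ?_⟩
    simp only [B, ← he, h2, h3, inner_zero_right, LinearMap.snd_apply]
    linear_combination -⟪p.2, q.2⟫_ℝ * e2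
  refine ⟨LinearMap.snd _ _ _ - (LinearMap.fst _ _ _ + (e / (1 + x.1)) •
    ((innerSL ℝ x.2).toLinearMap ∘ₗ LinearMap.snd _ _ _)).smulRight x.2, fun p q => ?_⟩
  have h2 : ⟪x.2, x.2⟫_ℝ = e * (1 - x.1) * (1 + x.1) := by
    linear_combination e * h - ⟪x.2, x.2⟫_ℝ * e2
  simp [B, ← he, inner_sub_left, inner_sub_right, real_inner_smul_left, real_inner_smul_right,
    real_inner_comm x.2, -inner_self_eq_norm_sq_to_K, h2]
  field_simp
  grind

lemma one_le {p q : V d} (hp : p ∈ X false d) (hq : q ∈ X false d) : 1 ≤ B false p q := by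
  obtain ⟨w, hw⟩ := ex_w false hq
  have h1 := hw p p
  have h2 := real_inner_self_nonneg (x := w p)
  have h3 := real_inner_mul_inner_self_le p.2 q.2
  have a := hp.1
  have c := hq.1
  have a' := hp.2 rfl
  have c' := hq.2 rfl
  rw [a] at h1
  have : 0 < B false p q := by
    simp only [B, Bool.false_eq_true, if_false] at a c ⊢
    have := real_inner_self_nonneg (x := p.2)
    have := real_inner_self_nonneg (x := q.2)
    have := abs_lt_of_sq_lt_sq' (a := ⟪p.2, q.2⟫_ℝ) (b := p.1 * q.1) (by nlinarith) (by positivity)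
    linarith
  simp only [Bool.false_eq_true, if_false] at h1
  nlinarith

lemma co_ds (b : Bool) {p q : V d} (hp : p ∈ X b d) (hq : q ∈ X b d) :
    (if b then cos (ds b p q) else cosh (ds b p q)) = B b p q := by
  cases b
  · exact cosh_arcosh (one_le hp hq)
  obtain ⟨w, hw⟩ := ex_w true hq
  have h1 := hw p p
  have h2 := real_inner_self_nonneg (x := w p)
  rw [hp.1, if_pos rfl] at h1
  exact cos_arccos (by nlinarith) (by nlinarith)

lemma regular (b : Bool) {c : V d} (hc : c ∈ X b d) {q : Fin (d + 1) → V d} (hq : ∀ i, q i ∈ X b d)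
    (hl : LinearIndependent ℝ q) {C γ : ℝ} (h1 : ∀ i, B b (q i) c = C)
    (h2 : ∀ i j, i ≠ j → B b (q i) (q j) = γ) : (1 - C ^ 2) + d * (γ - C ^ 2) = 0 := by
  obtain ⟨w, hw⟩ := ex_w b hc
  obtain ⟨g, g1, j, g2⟩ := Fintype.not_linearIndependent_iff.1 fun h : LinearIndependent ℝ
    fun i => w (q i) => by simpa using h.fintype_card_le_finrank
  have e0 : (if b then 1 else -1 : ℝ) ≠ 0 := by cases b <;> simp
  have k : ∀ v, B b (∑ i, g i • q i) v = (∑ i, g i) * C * B b v c := fun v => by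
    have := hw (∑ i, g i • q i) v
    simp only [map_sum, map_smul, g1, inner_zero_left, B_sum b _ _ _ c, h1, ← sum_mul] at this
    exact sub_eq_zero.1 ((mul_eq_zero.1 this.symm).resolve_left e0)
  have G : ∑ i, g i ≠ 0 := fun e => g2 (Fintype.linearIndependent_iff.1 hl g (by
    set v := ∑ i, g i • q i
    have a := k (1, 0)
    have a' := k (0, v.2)
    simp only [e, zero_mul] at a a'
    simp only [B, mul_one, inner_zero_right, mul_zero, add_zero, zero_add] at a a'
    exact Prod.ext a (inner_self_eq_zero (𝕜 := ℝ).1 ((mul_eq_zero.1 a').resolve_left e0))) j)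
  have m : ∀ j, (1 - γ) * g j + γ * ∑ i, g i = (∑ i, g i) * C * C := fun j => by
    have := k (q j)
    rw [h1 j] at this
    rw [← this, B_sum, ← add_sum_erase _ _ (mem_univ j), ← add_sum_erase _ _ (mem_univ j),
      (hq j).1, sum_congr rfl (f := fun i => g i * B b (q i) (q j)) (g := fun i => g i * γ)
      fun i hi => by rw [h2 i j (mem_erase.1 hi).1], ← sum_mul]
    ring
  have := sum_congr rfl fun j (_ : j ∈ univ) => m j
  simp only [sum_add_distrib, ← mul_sum, sum_const, card_univ, Fintype.card_fin, nsmul_eq_mul] at this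
  push_cast at this
  refine mul_left_cancel₀ G ?_
  linear_combination this

theorem result (b : Bool) (d k : ℕ) (hk : k < d) (R : ℝ) (hR : 0 < R) (hR' : b = true → R < π / 2)
    (c : V d) (hc : c ∈ X b d) (q : Fin (d + 1) → V d) (hq : ∀ i, q i ∈ X b d ∧ ds b c (q i) = R)
    (hl : LinearIndependent ℝ q) (l : ℝ) (he : ∀ i j, i ≠ j → ds b (q i) (q j) = l)
    (p : Fin (d + 1) → V d) (hp : ∀ i, p i ∈ X b d ∧ ds b c (p i) ≤ R)
    (x : V d) (hx : x ∈ hull b p univ) (ρ : ℝ)
    (h : ∀ S : Finset (Fin (d + 1)), S.card = k + 1 → ∀ z ∈ hull b p S, ρ ≤ ds b x z) :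
    ∀ S : Finset (Fin (d + 1)), S.card = k + 1 → ∀ v ∈ hull b q S, ρ ≤ ds b c v := by
  rintro S' hS' v ⟨hv, a', a0', rfl⟩
  obtain ⟨hx, μ, hμ, e0⟩ := hx
  obtain ⟨w, hw⟩ := ex_w b hx
  set e : ℝ := if b then 1 else -1 with he'
  set C := if b then cos R else cosh R with hC
  have C0 : 0 < C := by
    cases b
    exacts [cosh_pos R, cos_pos_of_mem_Ioo ⟨by linarith [pi_pos], hR' rfl⟩]
  have C1 : 0 < e * (1 - C ^ 2) := by
    cases b
    · have := one_lt_cosh.2 hR.ne'
      simp only [e, C, Bool.false_eq_true, if_false]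
      nlinarith
    · have := sin_pos_of_pos_of_lt_pi hR (by linarith [pi_pos, hR' rfl])
      simp only [e, C, if_true]
      nlinarith [sin_sq_add_cos_sq R]
  have d0 : (0 : ℝ) < d := by exact_mod_cast (by omega : 0 < d)
  have dk : (k : ℝ) < d := by exact_mod_cast hk
  set κ := H10.Skeleton.c (Fintype.card (Fin (d + 1))) (k + 1) with hκ
  have κ1 : κ = (d - k) / ((k + 1) * d) := by simp [κ, H10.Skeleton.c]
  have κ0 : 0 < κ := by rw [κ1]; exact div_pos (by linarith) (by positivity)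
  have κ2 : κ ≤ 1 := by rw [κ1, div_le_one (by positivity)]; nlinarith
  have n1 : ∀ z ∈ X b d, ‖w z‖ ^ 2 = e * (1 - B b z x ^ 2) := fun z hz => by
    rw [← real_inner_self_eq_norm_sq, hw, hz.1, sq]
  have s1 : ∑ i, μ i * B b (p i) x = 1 := by rw [← B_sum, ← e0, hx.1]
  have s2 : 0 ≤ e * (B b x c - (∑ i, μ i) * C) := by
    rw [e0, B_sum, sum_mul, ← sum_sub_distrib, mul_sum]
    refine sum_nonneg fun i _ => ?_
    rw [← mul_sub, mul_left_comm, B_comm, ← co_ds b hc (hp i).1]
    refine mul_nonneg (hμ i) ?_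
    have := (hp i).2
    cases b
    · have := cosh_le_cosh.2 ((abs_of_nonneg (arcosh_nonneg (one_le hc (hp i).1))).trans_le
        (this.trans (le_abs_self R)))
      simpa [e, C, ds] using this
    · simpa [e, C, ds] using cos_le_cos_of_nonneg_of_le_pi (arccos_nonneg _)
        (by linarith [pi_pos, hR' rfl]) this
  obtain ⟨t, t0, ht⟩ : ∃ t : Fin (d + 1) → ℝ, (∀ i, 0 < t i) ∧
      (∑ i, μ i / t i) * ∑ i, μ i * t i * ‖w (p i)‖ ^ 2 ≤ e * (1 - C ^ 2) / C ^ 2 := by
    have N0 := sum_nonneg fun i (_ : i ∈ univ) => hμ i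
    rw [show e * (1 - C ^ 2) / C ^ 2 = e * (C⁻¹ ^ 2 - 1) by field_simp]
    have i0 := inv_pos.2 C0
    have i1 := mul_inv_cancel₀ C0.ne'
    cases b
    · have o := fun i => one_le (hp i).1 hx
      refine ⟨fun i => (B false (p i) x)⁻¹, fun i => inv_pos.2 (one_pos.trans_le (o i)), ?_⟩
      simp only [div_inv_eq_mul, s1, one_mul]
      refine (sum_le_sum (g := fun i => (1 + C⁻¹ ^ 2) * (μ i * B false (p i) x) - 2 * C⁻¹ * μ i)
        fun i _ => ?_).trans ?_
      · have := o i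
        have j := mul_inv_cancel₀ (one_pos.trans_le (o i)).ne'
        have j0 := inv_pos.2 (one_pos.trans_le (o i))
        rw [n1 _ (hp i).1]
        simp only [e, Bool.false_eq_true, if_false]
        set s := B false (p i) x
        have : 0 ≤ μ i * (s⁻¹ * (1 - C⁻¹ * s) ^ 2) := mul_nonneg (hμ i) (by positivity)
        linear_combination this + μ i * (s - 2 * C⁻¹ + C⁻¹ ^ 2 * s) * j
      rw [sum_sub_distrib, ← mul_sum, ← mul_sum, s1]
      have := one_le hx hc
      simp only [e, Bool.false_eq_true, if_false] at s2 ⊢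
      have : C⁻¹ ≤ ∑ i, μ i := by nlinarith
      nlinarith
    · refine ⟨fun _ => 1, fun _ => one_pos, ?_⟩
      simp only [div_one, mul_one]
      have : B true x c ≤ 1 := co_ds true hx hc ▸ cos_le_one _
      simp only [e, if_true] at s2 n1 ⊢
      have N1 : ∑ i, μ i ≤ C⁻¹ := by nlinarith
      refine (mul_le_mul_of_nonneg_left (sum_le_sum (g := fun i =>
        (1 + C ^ 2) * μ i - 2 * C * (μ i * B true (p i) x)) fun i _ => ?_) N0).trans ?_
      · rw [n1 _ (hp i).1]
        nlinarith [mul_nonneg (hμ i) (sq_nonneg (B true (p i) x - C))]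
      rw [sum_sub_distrib, ← mul_sum, ← mul_sum, s1]
      simp only [e, if_true] at C1
      have : C ≤ C⁻¹ := by nlinarith
      nlinarith [mul_nonneg (sub_nonneg.2 N1) (mul_nonneg N0 (sq_nonneg C)), mul_nonneg
        (sub_nonneg.2 N1) N0, mul_nonneg (sub_nonneg.2 N1) (sub_nonneg.2 this)]
  set T := e * (1 - C ^ 2) / C ^ 2 with hT
  have T0 : 0 < T := by positivity
  obtain ⟨S, hS, a, a0, a1, a2⟩ := core (fun i => w (p i)) (fun i => B b (p i) x) μ t hμ t0 (by
    simp only [← map_smul, ← map_sum, ← e0]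
    simpa [hx.1] using n1 x hx) s1 T (k + 1) (by omega) (by simp; omega) κ0 T0 ht
  simp only [← map_smul, ← map_sum, ← B_sum, ← hκ] at a1 a2
  set z := ∑ i ∈ S, a i • p i with hz
  have z1 := hw z z
  rw [real_inner_self_eq_norm_sq] at z1
  have z0 : 0 < B b z z := by
    cases b
    · have : T < 1 := by rw [hT, div_lt_one (by positivity)]; simp [e]
      simp only [e, Bool.false_eq_true, if_false] at z1
      have : κ * T < 1 := by nlinarith
      nlinarith [mul_pos a1 a1]
    · simp only [e, if_true] at z1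
      nlinarith [mul_pos a1 a1, sq_nonneg ‖w z‖]
  obtain ⟨r, r0, hr⟩ : ∃ r : ℝ, 0 < r ∧ r ^ 2 * B b z z = 1 :=
    ⟨(√(B b z z))⁻¹, by positivity, by rw [inv_pow, sq_sqrt z0.le, inv_mul_cancel₀ z0.ne']⟩
  have sm : ∀ y, B b (r • z) y = r * B b z y := fun y => by
    simp only [B, Prod.smul_fst, Prod.smul_snd, smul_eq_mul, real_inner_smul_left]
    ring
  have zz : B b (r • z) (r • z) = 1 := by rw [sm, B_comm, sm, ← hr]; ring
  have zX : r • z ∈ X b d := ⟨zz, fun hb => by
    have : 0 ≤ (r • z).1 := by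
      simp only [hz, Prod.smul_fst, Prod.fst_sum, smul_eq_mul]
      exact mul_nonneg r0.le (sum_nonneg fun i _ => mul_nonneg (a0 i) ((hp i).1.2 hb).le)
    refine this.lt_of_ne fun j => ?_
    subst hb
    simp only [B, ← j, Bool.false_eq_true, if_false] at zz
    linarith [real_inner_self_nonneg (x := (r • z).2)]⟩
  refine (h S hS (r • z) ⟨zX, fun i => r * a i, fun i => mul_nonneg r0.le (a0 i), by
    simp only [hz, smul_sum, mul_smul]⟩).trans ?_
  have u1 : e * (1 - B b x (r • z) ^ 2) ≤ κ * T * B b x (r • z) ^ 2 := by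
    rw [B_comm, sm, ← hr]
    nlinarith [mul_le_mul_of_nonneg_left a2 (sq_nonneg r)]
  have u0 : 0 < B b x (r • z) := by rw [B_comm, sm]; positivity
  have q1 : ∀ i, B b (q i) c = C := fun i => by rw [B_comm, ← co_ds b hc (hq i).1, (hq i).2]
  obtain ⟨γ, q2⟩ : ∃ γ, ∀ i j, i ≠ j → B b (q i) (q j) = γ :=
    ⟨if b then cos l else cosh l, fun i j hij => by rw [← co_ds b (hq i).1 (hq j).1, he i j hij]⟩
  have q3 := regular b hc (fun i => (hq i).1) hl q1 q2
  have v1 : B b c (∑ i ∈ S', a' i • q i) = (∑ i ∈ S', a' i) * C := by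
    simp only [B_comm b c, B_sum, q1, sum_mul]
  have v2 : (1 - γ) * ∑ i ∈ S', a' i ^ 2 + γ * (∑ i ∈ S', a' i) ^ 2 = 1 := by
    refine Eq.trans ?_ hv.1
    rw [B_sum, sq, sum_mul, mul_sum, mul_sum, ← sum_add_distrib]
    refine sum_congr rfl fun j hj => ?_
    rw [B_comm, B_sum, ← add_sum_erase _ _ hj, ← add_sum_erase _ _ hj, (hq j).1.1, sum_congr rfl
      (f := fun i => a' i * B b (q i) (q j)) (g := fun i => a' i * γ) fun i hi => by rw [q2 i j (mem_erase.1 hi).1], ← sum_mul]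
    ring
  have v3 := sq_sum_le_card_mul_sum_sq (s := S') (f := a')
  have v0 : 0 ≤ B b c (∑ i ∈ S', a' i • q i) :=
    v1 ▸ mul_nonneg (sum_nonneg fun i _ => a0' i) C0.le
  have u2 : κ * T * B b c (∑ i ∈ S', a' i • q i) ^ 2 ≤
      e * (1 - B b c (∑ i ∈ S', a' i • q i) ^ 2) := by
    rw [hS'] at v3
    push_cast at v3
    rw [v1, κ1, hT, ← congrArg (· - ((∑ i ∈ S', a' i) * C) ^ 2) v2,
      show γ = C ^ 2 - (1 - C ^ 2) / d by field_simp; linarith]
    have := mul_nonneg (mul_nonneg C1.le (by positivity : (0 : ℝ) ≤ (d + 1) / (d * (k + 1))))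
      (sub_nonneg.2 v3)
    refine sub_nonneg.1 (this.trans_eq ?_)
    field_simp
    ring
  have kT := mul_pos κ0 T0
  cases b
  · simp only [e, Bool.false_eq_true, if_false, ds] at u1 u2 ⊢
    have : T < 1 := by rw [hT, div_lt_one (by positivity)]; simp [e]
    have : κ * T < 1 := by nlinarith
    exact (arcosh_le_arcosh u0 (one_pos.trans_le (one_le hc hv))).2
      (abs_le_of_sq_le_sq' (by nlinarith) v0).2
  · simp only [e, if_true, ds] at u1 u2 ⊢
    exact arccos_le_arccos (abs_le_of_sq_le_sq' (by nlinarith) u0.le).2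

end Pool.Agent.Results.MP_fc7dfc_gt.Skel
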